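import Mathlib

set_option autoImplicit false

namespace Pool.Agent.H262Z.GK

open Filter Topology

section
variable {k A : Type} [Field k] [Ring A] [Algebra k A]

lemma pow_mono_of_one_mem {W : Submodule k A} (h1 : (1 : A) ∈ W) {m n : ℕ} (h : m ≤ n) :
    W ^ m ≤ W ^ n := by
  induction h with
  | refl => exact le_rfl
  | step _ ih =>
    refine ih.trans ?_
    intro a ha
    rw [pow_succ]
    simpa using Submodule.mul_mem_mul ha h1

lemma mem_pow_of_adjoin {W : Submodule k A} (h1 : (1 : A) ∈ W)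
    (hW : Algebra.adjoin k (W : Set A) = ⊤) (a : A) : ∃ N, a ∈ W ^ N := by
  have ha : a ∈ Algebra.adjoin k (W : Set A) := by rw [hW]; trivial
  induction ha using Algebra.adjoin_induction with
  | mem x hx => exact ⟨1, by simpa using hx⟩
  | algebraMap r =>
    refine ⟨1, ?_⟩
    rw [pow_one, Algebra.algebraMap_eq_smul_one]
    exact W.smul_mem r h1
  | add x y _ _ hx hy =>
    obtain ⟨m, hm⟩ := hx
    obtain ⟨n, hn⟩ := hy
    exact ⟨m + n, add_mem (pow_mono_of_one_mem h1 (Nat.le_add_right _ _) hm)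
      (pow_mono_of_one_mem h1 (Nat.le_add_left _ _) hn)⟩
  | mul x y _ _ hx hy =>
    obtain ⟨m, hm⟩ := hx
    obtain ⟨n, hn⟩ := hy
    exact ⟨m + n, by rw [pow_add]; exact Submodule.mul_mem_mul hm hn⟩

lemma le_pow_of_adjoin {W : Submodule k A} (h1 : (1 : A) ∈ W)
    (hW : Algebra.adjoin k (W : Set A) = ⊤) (V : Submodule k A) (hV : V.FG) :
    ∃ N, 1 ≤ N ∧ V ≤ W ^ N := by
  obtain ⟨s, rfl⟩ := hV
  choose f hf using mem_pow_of_adjoin h1 hW
  refine ⟨s.sup f + 1, by omega, ?_⟩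
  rw [Submodule.span_le]
  intro a ha
  exact pow_mono_of_one_mem h1 ((Finset.le_sup (f := f) ha).trans (Nat.le_succ _)) (hf a)

lemma pow_le_pow_mul {V W : Submodule k A} {N : ℕ} (h : V ≤ W ^ N) (n : ℕ) :
    V ^ n ≤ W ^ (N * n) := by
  rw [pow_mul]
  exact pow_le_pow_left' h n

end

lemma tendsto_log_ratio (c : ℝ) (hc : 0 < c) :
    Tendsto (fun n : ℕ => Real.log (c * (n : ℝ) ^ 2) / Real.log (n : ℝ)) atTop (𝓝 2) := by
  have hl : Tendsto (fun n : ℕ => Real.log (n : ℝ)) atTop atTop :=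
    Real.tendsto_log_atTop.comp tendsto_natCast_atTop_atTop
  have h0 : Tendsto (fun n : ℕ => Real.log c / Real.log (n : ℝ) + 2) atTop (𝓝 (0 + 2)) :=
    (tendsto_const_nhds.div_atTop hl).add tendsto_const_nhds
  rw [zero_add] at h0
  refine h0.congr' ?_
  filter_upwards [eventually_ge_atTop 2] with n hn
  have hn' : (1 : ℝ) < n := by exact_mod_cast hn
  have hlog : Real.log (n : ℝ) ≠ 0 := (Real.log_pos hn').ne'
  rw [Real.log_mul hc.ne' (by positivity), Real.log_pow]
  field_simp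
  push_cast
  ring

lemma limsup_two (u : ℕ → ℕ) (c C : ℝ) (hc : 0 < c) (hC : 0 < C)
    (h1 : ∀ n : ℕ, 1 ≤ n → c * (n : ℝ) ^ 2 ≤ u n) (h2 : ∀ n : ℕ, 1 ≤ n → (u n : ℝ) ≤ C * (n : ℝ) ^ 2) :
    Filter.limsup (fun n : ℕ => (((Real.log (u n : ℝ)) / Real.log (n : ℝ) : ℝ) : EReal))
      Filter.atTop = 2 := by
  have ht : Tendsto (fun n : ℕ => Real.log (u n : ℝ) / Real.log (n : ℝ)) atTop (𝓝 2) := by
    refine tendsto_of_tendsto_of_tendsto_of_le_of_le' (tendsto_log_ratio c hc)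
      (tendsto_log_ratio C hC) ?_ ?_
    · filter_upwards [eventually_ge_atTop 2] with n hn
      have hn' : (1 : ℝ) < n := by exact_mod_cast hn
      have hp : 0 < c * (n : ℝ) ^ 2 := by positivity
      exact div_le_div_of_nonneg_right (Real.log_le_log hp (h1 n (by omega)))
        (Real.log_pos hn').le
    · filter_upwards [eventually_ge_atTop 2] with n hn
      have hn' : (1 : ℝ) < n := by exact_mod_cast hn
      have hp : 0 < c * (n : ℝ) ^ 2 := by positivity
      exact div_le_div_of_nonneg_right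
        (Real.log_le_log (hp.trans_le (h1 n (by omega))) (h2 n (by omega)))
        (Real.log_pos hn').le
  have ht' := (continuous_coe_real_ereal.tendsto 2).comp ht
  have h := ht'.limsup_eq
  have e : (((2 : ℝ)) : EReal) = 2 := by norm_cast
  rw [e] at h
  exact h

section
variable {k A : Type} [Field k] [Ring A] [Algebra k A]

/-- quadratic growth for one generating subspace gives GK dimension two for all of them -/
theorem gk_all (W : Submodule k A) (hWfg : W.FG) (h1 : (1 : A) ∈ W)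
    (hW : Algebra.adjoin k (W : Set A) = ⊤)
    (hup : ∀ n, Module.finrank k ↥(W ^ n) ≤ 2 * (10 * n + 1) ^ 2)
    (hlo : ∀ n, (n / 2 + 1) ^ 2 ≤ Module.finrank k ↥(W ^ n))
    (V : Submodule k A) (hV : FiniteDimensional k V) (h1V : (1 : A) ∈ V)
    (hVt : Algebra.adjoin k (V : Set A) = ⊤) :
    Filter.limsup (fun n : ℕ =>
        (((Real.log (Module.finrank k ↥(V ^ n) : ℝ)) / Real.log (n : ℝ) : ℝ) : EReal))
        Filter.atTop = 2 := by
  have hVfg : V.FG := Module.Finite.iff_fg.mp hV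
  obtain ⟨N, hN1, hN⟩ := le_pow_of_adjoin h1 hW V hVfg
  obtain ⟨M, hM1, hM⟩ := le_pow_of_adjoin h1V hVt W hWfg
  have hMpos : (0 : ℝ) < M := by exact_mod_cast hM1
  refine limsup_two (fun n => Module.finrank k ↥(V ^ n)) (1 / (2 * M) ^ 2)
    (2 * (10 * N + 1) ^ 2) (by positivity) (by positivity) ?_ ?_
  · intro n _
    have : Module.Finite k ↥(V ^ n) := Module.Finite.iff_fg.mpr (hVfg.pow n)
    have hle : W ^ (n / M) ≤ V ^ n :=
      (pow_le_pow_mul hM (n / M)).trans (pow_mono_of_one_mem h1V (Nat.mul_div_le n M))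
    have h3 : (n / M / 2 + 1) ^ 2 ≤ Module.finrank k ↥(V ^ n) :=
      (hlo (n / M)).trans (Submodule.finrank_mono hle)
    have h4 : n ≤ (2 * M) * (n / M / 2 + 1) := by
      rw [Nat.div_div_eq_div_mul, mul_comm M 2]
      exact (Nat.lt_mul_div_succ n (by omega)).le
    have h5 : n ^ 2 ≤ (2 * M) ^ 2 * Module.finrank k ↥(V ^ n) := by
      calc n ^ 2 ≤ ((2 * M) * (n / M / 2 + 1)) ^ 2 := Nat.pow_le_pow_left h4 2
        _ = (2 * M) ^ 2 * (n / M / 2 + 1) ^ 2 := by ring
        _ ≤ _ := Nat.mul_le_mul_left _ h3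
    have h6 : ((n : ℝ)) ^ 2 ≤ (2 * M) ^ 2 * (Module.finrank k ↥(V ^ n) : ℝ) := by
      exact_mod_cast h5
    rw [div_mul_eq_mul_div, one_mul, div_le_iff₀ (by positivity)]
    linarith
  · intro n hn
    have : Module.Finite k ↥(W ^ (N * n)) := Module.Finite.iff_fg.mpr (hWfg.pow _)
    have h3 : Module.finrank k ↥(V ^ n) ≤ 2 * (10 * (N * n) + 1) ^ 2 :=
      (Submodule.finrank_mono (pow_le_pow_mul hN n)).trans (hup _)
    have h4 : 10 * (N * n) + 1 ≤ (10 * N + 1) * n := by nlinarith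
    have h5 : Module.finrank k ↥(V ^ n) ≤ 2 * (10 * N + 1) ^ 2 * n ^ 2 := by
      calc _ ≤ 2 * (10 * (N * n) + 1) ^ 2 := h3
        _ ≤ 2 * ((10 * N + 1) * n) ^ 2 := Nat.mul_le_mul_left _ (Nat.pow_le_pow_left h4 2)
        _ = _ := by ring
    exact_mod_cast h5

/-- three Ore steps are impossible under quadratic growth -/
theorem no_three (W : Submodule k A) (hWfg : W.FG) (h1 : (1 : A) ∈ W)
    (hW : Algebra.adjoin k (W : Set A) = ⊤)
    (hup : ∀ n, Module.finrank k ↥(W ^ n) ≤ 2 * (10 * n + 1) ^ 2) [Nontrivial A]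
    (X : ℕ → A) (B : ℕ → Subalgebra k A)
    (hB : ∀ i, B i = Algebra.adjoin k (X '' {j | j < i}))
    (hind : ∀ i, i < 3 → ∀ m : ℕ, ∀ c : ℕ → A, (∀ j, c j ∈ B i) →
          ∑ j ∈ Finset.range m, c j * X i ^ j = 0 → ∀ j, j < m → c j = 0) : False := by
  have hX : ∀ i j, j < i → X j ∈ B i := fun i j h => by
    rw [hB]; exact Algebra.subset_adjoin ⟨j, h, rfl⟩
  have key : ∀ (m : ℕ) (r : ℕ → ℕ → ℕ → k),
      ∑ c ∈ Finset.range m, (∑ b ∈ Finset.range m, (∑ a ∈ Finset.range m,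
        algebraMap k A (r a b c) * X 0 ^ a) * X 1 ^ b) * X 2 ^ c = 0 →
      ∀ a b c, a < m → b < m → c < m → r a b c = 0 := by
    intro m r h a b c ha hb hc
    have h2 := hind 2 (by omega) m (fun c => ∑ b ∈ Finset.range m, (∑ a ∈ Finset.range m,
        algebraMap k A (r a b c) * X 0 ^ a) * X 1 ^ b) (fun c => sum_mem fun b _ =>
          mul_mem (sum_mem fun a _ => mul_mem (algebraMap_mem _ _)
            (pow_mem (hX 2 0 (by omega)) _)) (pow_mem (hX 2 1 (by omega)) _)) h c hc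
    have h3 := hind 1 (by omega) m (fun b => ∑ a ∈ Finset.range m,
        algebraMap k A (r a b c) * X 0 ^ a) (fun b => sum_mem fun a _ =>
          mul_mem (algebraMap_mem _ _) (pow_mem (hX 1 0 (by omega)) _)) h2 b hb
    have h4 := hind 0 (by omega) m (fun a => algebraMap k A (r a b c))
      (fun a => algebraMap_mem _ _) h3 a ha
    exact (algebraMap k A).injective (by simpa using h4)
  obtain ⟨N, hN1, hN⟩ := le_pow_of_adjoin h1 hW (Submodule.span k {1, X 0, X 1, X 2})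
    (Submodule.fg_span (Set.toFinite _))
  set m := 2 * (30 * N + 1) ^ 2 + 1 with hm
  set V : Submodule k A := Submodule.span k {1, X 0, X 1, X 2} with hVdef
  have h1V : (1 : A) ∈ V := Submodule.subset_span (by simp)
  have hmem : ∀ a b c, a < m → b < m → c < m → X 0 ^ a * X 1 ^ b * X 2 ^ c ∈ W ^ (N * (3 * m)) := by
    intro a b c ha hb hc
    refine pow_le_pow_mul hN (3 * m) (pow_mono_of_one_mem h1V (by omega : a + b + c ≤ 3 * m) ?_)
    rw [pow_add, pow_add]
    exact Submodule.mul_mem_mul (Submodule.mul_mem_mul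
      (Submodule.pow_mem_pow _ (Submodule.subset_span (by simp)) _)
      (Submodule.pow_mem_pow _ (Submodule.subset_span (by simp)) _))
      (Submodule.pow_mem_pow _ (Submodule.subset_span (by simp)) _)
  let v : Fin m × Fin m × Fin m → ↥(W ^ (N * (3 * m))) := fun t =>
    ⟨X 0 ^ (t.2.2 : ℕ) * X 1 ^ (t.2.1 : ℕ) * X 2 ^ (t.1 : ℕ), hmem _ _ _ t.2.2.2 t.2.1.2 t.1.2⟩
  have hli : LinearIndependent k v := by
    rw [Fintype.linearIndependent_iff]
    intro g hg t
    let r : ℕ → ℕ → ℕ → k := fun a b c =>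
      if h : a < m ∧ b < m ∧ c < m then g (⟨c, h.2.2⟩, ⟨b, h.2.1⟩, ⟨a, h.1⟩) else 0
    have hr : ∀ a b c : Fin m, r a b c = g (c, b, a) := fun a b c => by
      simp only [r]; rw [dif_pos ⟨a.2, b.2, c.2⟩]
    have h0 := key m r (by
      have hg' := congrArg Subtype.val hg
      simp only [Submodule.coe_sum, Submodule.coe_smul, v, Fintype.sum_prod_type,
        Submodule.coe_zero] at hg'
      rw [← hg']
      simp only [Finset.sum_range, Finset.sum_mul, hr, Algebra.smul_def, mul_assoc])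
      t.2.2 t.2.1 t.1 t.2.2.2 t.2.1.2 t.1.2
    rw [hr] at h0
    exact h0
  have : Module.Finite k ↥(W ^ (N * (3 * m))) := Module.Finite.iff_fg.mpr (hWfg.pow _)
  have hc := hli.fintype_card_le_finrank
  simp only [Fintype.card_prod, Fintype.card_fin] at hc
  have h3 := hc.trans (hup _)
  have hmpos : 1 ≤ m := by omega
  have h4 : 10 * (N * (3 * m)) + 1 ≤ (30 * N + 1) * m := by nlinarith
  have h5 : m * (m * m) ≤ 2 * (30 * N + 1) ^ 2 * (m * m) := by
    calc _ ≤ 2 * (10 * (N * (3 * m)) + 1) ^ 2 := h3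
      _ ≤ 2 * ((30 * N + 1) * m) ^ 2 := Nat.mul_le_mul_left _ (Nat.pow_le_pow_left h4 2)
      _ = _ := by ring
  have h6 : m ≤ 2 * (30 * N + 1) ^ 2 := Nat.le_of_mul_le_mul_right h5 (by positivity)
  omega

end

end Pool.Agent.H262Z.GK
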